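import Mathlib

set_option autoImplicit false

/-!
# A metrizable locally compact right topological group without right Haar measure

The group is `ℝ × ℝ` with its usual topology and the multiplication
`(u,v)(a,b) = (u + a, l(a) v + b)`, where `l : ℝ → (0,∞)` is a discontinuous homomorphism.
-/

namespace Pool.Agent.Results.MP_d698c5_an.NoHaar

open MeasureTheory Set Filter Topology

/-- a discontinuous additive function on `ℝ` -/
theorem exists_f : ∃ f : ℝ →+ ℝ, f 1 = 0 ∧ f (Real.sqrt 2) = 1 := by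
  set W : Submodule ℚ ℝ := ℚ ∙ (1 : ℝ) with hW
  have hne : W.mkQ (Real.sqrt 2) ≠ 0 := by
    rw [Ne, Submodule.mkQ_apply, Submodule.Quotient.mk_eq_zero, hW, Submodule.mem_span_singleton]
    rintro ⟨q, hq⟩
    have h := irrational_sqrt_two
    apply h
    refine ⟨q, ?_⟩
    rw [← hq, Rat.smul_def, mul_one]
  obtain ⟨φ, hφ⟩ : ∃ φ : Module.Dual ℚ (ℝ ⧸ W), φ (W.mkQ (Real.sqrt 2)) ≠ 0 := by
    by_contra hcon
    push Not at hcon
    exact hne ((Module.forall_dual_apply_eq_zero_iff ℚ _).1 hcon)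
  set c : ℚ := φ (W.mkQ (Real.sqrt 2)) with hc
  refine ⟨{ toFun := fun x => ((φ (W.mkQ x) / c : ℚ) : ℝ), map_zero' := ?_, map_add' := ?_ }, ?_, ?_⟩
  · simp
  · intro x y
    rw [map_add, map_add, add_div]
    push_cast
    rfl
  · change ((φ (W.mkQ 1) / c : ℚ) : ℝ) = 0
    have : W.mkQ 1 = 0 := by
      rw [Submodule.mkQ_apply, Submodule.Quotient.mk_eq_zero, hW]
      exact Submodule.mem_span_singleton_self _
    rw [this]
    simp
  · change ((φ (W.mkQ (Real.sqrt 2)) / c : ℚ) : ℝ) = 1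
    rw [← hc, div_self hφ]
    simp

/-- the additive function -/
noncomputable def f : ℝ →+ ℝ := Classical.choose exists_f

theorem f_one : f 1 = 0 := (Classical.choose_spec exists_f).1

theorem f_sqrt : f (Real.sqrt 2) = 1 := (Classical.choose_spec exists_f).2

theorem f_int (n : ℤ) : f n = 0 := by
  have : (n : ℝ) = n • (1 : ℝ) := by simp
  rw [this, map_zsmul, f_one, smul_zero]

/-- the discontinuous homomorphism -/
noncomputable def l (a : ℝ) : ℝ := Real.exp (f a)

theorem l_pos (a : ℝ) : 0 < l a := Real.exp_pos _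

theorem l_zero : l 0 = 1 := by simp [l]

theorem l_add (a b : ℝ) : l (a + b) = l a * l b := by
  rw [l, l, l, map_add, Real.exp_add]

theorem l_neg (a : ℝ) : l (-a) * l a = 1 := by
  rw [← l_add, neg_add_cancel, l_zero]

/-- The carrier of the group: `ℝ × ℝ`. -/
def G : Type := ℝ × ℝ

instance : TopologicalSpace G := inferInstanceAs (TopologicalSpace (ℝ × ℝ))

instance : MeasurableSpace G := inferInstanceAs (MeasurableSpace (ℝ × ℝ))

instance : BorelSpace G := inferInstanceAs (BorelSpace (ℝ × ℝ))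

/-- The multiplication `(u,v)(a,b) = (u + a, l(a) v + b)`. -/
noncomputable instance : Mul G := ⟨fun x y => (x.1 + y.1, l y.1 * x.2 + y.2)⟩

noncomputable instance : One G := ⟨((0 : ℝ), (0 : ℝ))⟩

noncomputable instance : Inv G := ⟨fun x => (-x.1, -(l (-x.1) * x.2))⟩

theorem mul_def (x y : G) : x * y = (x.1 + y.1, l y.1 * x.2 + y.2) := rfl

theorem mul_fst (x y : G) : (x * y).1 = x.1 + y.1 := rfl

theorem mul_snd (x y : G) : (x * y).2 = l y.1 * x.2 + y.2 := rfl

theorem one_fst : (1 : G).1 = 0 := rfl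

theorem one_snd : (1 : G).2 = 0 := rfl

theorem inv_fst (x : G) : (x⁻¹).1 = -x.1 := rfl

theorem inv_snd (x : G) : (x⁻¹).2 = -(l (-x.1) * x.2) := rfl

theorem ext' {x y : G} (h1 : x.1 = y.1) (h2 : x.2 = y.2) : x = y := Prod.ext h1 h2

noncomputable instance : Group G :=
  Group.ofLeftAxioms
    (fun x y z => by
      refine ext' ?_ ?_
      · simp only [mul_fst]; ring
      · simp only [mul_snd, mul_fst, l_add]; ring)
    (fun x => by
      refine ext' ?_ ?_
      · simp only [mul_fst, one_fst]; ring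
      · simp only [mul_snd, one_snd]; ring)
    (fun x => by
      refine ext' ?_ ?_
      · simp only [mul_fst, one_fst, inv_fst]; ring
      · simp only [mul_snd, one_snd, inv_snd]
        have := l_neg x.1
        linear_combination (-x.2) * this)

theorem continuous_right (x : G) : Continuous fun g : G => g * x := by
  have : Continuous fun g : ℝ × ℝ => (g.1 + x.1, l x.1 * g.2 + x.2) := by fun_prop
  exact this

/-- the element `(a,b)` of the group -/
def mk (a b : ℝ) : G := (a, b)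

/-- the image of a rectangle -/
theorem image_rect (a b p q r s : ℝ) :
    (fun g : G => g * mk a b) '' (Ico p q ×ˢ Ico r s : Set (ℝ × ℝ))
      = (Ico (p + a) (q + a) ×ˢ Ico (l a * r + b) (l a * s + b) : Set (ℝ × ℝ)) := by
  have hl := l_pos a
  ext ⟨u, v⟩
  simp only [mem_image, mem_prod, mem_Ico]
  constructor
  · rintro ⟨⟨x, y⟩, ⟨⟨h1, h2⟩, h3, h4⟩, h5⟩
    have h6 : x + a = u := congrArg Prod.fst h5
    have h7 : l a * y + b = v := congrArg Prod.snd h5
    subst h6
    subst h7
    refine ⟨⟨by linarith, by linarith⟩, ?_, ?_⟩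
    · have := mul_le_mul_of_nonneg_left h3 hl.le
      linarith
    · have := mul_lt_mul_of_pos_left h4 hl
      linarith
  · rintro ⟨⟨h1, h2⟩, h3, h4⟩
    refine ⟨(u - a, (v - b) / l a), ⟨⟨by linarith, by linarith⟩, ?_, ?_⟩, ?_⟩
    · rw [le_div_iff₀ hl]; linarith
    · rw [div_lt_iff₀ hl]; linarith
    · refine Prod.ext ?_ ?_
      · change u - a + a = u
        ring
      · change l a * ((v - b) / l a) + b = v
        field_simp
        ring

theorem measurable_rect (p q r s : ℝ) :
    MeasurableSet ((Ico p q ×ˢ Ico r s : Set (ℝ × ℝ)) : Set G) :=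
  (measurableSet_Ico.prod measurableSet_Ico : MeasurableSet (Ico p q ×ˢ Ico r s : Set (ℝ × ℝ)))

theorem main (μ : Measure G) (hK : ∀ K : Set G, IsCompact K → μ K < ⊤)
    (hinv : ∀ (g : G) (E : Set G), MeasurableSet E → μ ((fun x => x * g) '' E) = μ E) : μ = 0 := by
  -- invariance for rectangles
  have hrect : ∀ a b p q r s : ℝ,
      μ (Ico (p + a) (q + a) ×ˢ Ico (l a * r + b) (l a * s + b) : Set (ℝ × ℝ))
        = μ (Ico p q ×ˢ Ico r s : Set (ℝ × ℝ)) := by
    intro a b p q r s
    rw [← image_rect]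
    exact hinv _ _ (measurable_rect p q r s)
  set c₀ := μ (Ico (0 : ℝ) 1 ×ˢ Ico (0 : ℝ) 1 : Set (ℝ × ℝ)) with hc₀
  set M := μ (Icc (0 : ℝ) 2 ×ˢ Icc (0 : ℝ) 1 : Set (ℝ × ℝ)) with hM
  have hMfin : M < ⊤ := hK _ (isCompact_Icc.prod isCompact_Icc :
    IsCompact (Icc (0 : ℝ) 2 ×ˢ Icc (0 : ℝ) 1 : Set (ℝ × ℝ)))
  -- `k c₀ ≤ M` for all `k`
  have hk : ∀ k : ℕ, (k : ENNReal) * c₀ ≤ M := by
    intro k
    set a : ℝ := Int.fract (-(k : ℝ) * Real.sqrt 2) with ha
    have hfa : f a = -(k : ℝ) := by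
      have h1 : a = (-(k : ℤ)) • Real.sqrt 2 - ((⌊-(k : ℝ) * Real.sqrt 2⌋ : ℤ) : ℝ) := by
        rw [ha, Int.fract]
        simp
      rw [h1, map_sub, map_zsmul, f_sqrt, f_int]
      simp
    have ha0 : 0 ≤ a := Int.fract_nonneg _
    have ha1 : a < 1 := Int.fract_lt_one _
    have hla : (k : ℝ) * l a ≤ 1 := by
      rw [l, hfa, Real.exp_neg]
      have h2 : (k : ℝ) ≤ Real.exp k := by
        have := Real.add_one_le_exp (k : ℝ)
        linarith
      rw [← div_eq_mul_inv, div_le_one (Real.exp_pos _)]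
      exact h2
    have hl := l_pos a
    -- the stacked rectangles
    set R : ℕ → Set (ℝ × ℝ) := fun i => Ico (0 + a) (1 + a) ×ˢ Ico (l a * 0 + i * l a) (l a * 1 + i * l a)
      with hR
    have hRμ : ∀ i, μ (R i) = c₀ := fun i => hrect a (i * l a) 0 1 0 1
    have hRm : ∀ i, MeasurableSet (R i : Set G) := fun i => measurable_rect _ _ _ _
    have hdisj : Set.PairwiseDisjoint (↑(Finset.range k) : Set ℕ) (fun i => (R i : Set G)) := by
      intro i _ j _ hij
      refine Set.disjoint_left.2 ?_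
      rintro ⟨u, v⟩ h1 h2
      have h3 := h1.2
      have h4 := h2.2
      simp only [mem_Ico] at h3 h4
      rcases lt_or_gt_of_ne hij with h | h
      · have : (i : ℝ) + 1 ≤ j := by exact_mod_cast h
        nlinarith
      · have : (j : ℝ) + 1 ≤ i := by exact_mod_cast h
        nlinarith
    have hunion : (⋃ i ∈ Finset.range k, (R i : Set G)) ⊆ (Icc (0 : ℝ) 2 ×ˢ Icc (0 : ℝ) 1 : Set (ℝ × ℝ)) := by
      intro x hx
      simp only [mem_iUnion, Finset.mem_range] at hx
      obtain ⟨i, hi, hx1, hx2⟩ := hx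
      simp only [mem_Ico] at hx1 hx2
      have h5 : (i : ℝ) + 1 ≤ k := by exact_mod_cast hi
      have h6 : (0 : ℝ) ≤ i := by positivity
      refine ⟨⟨by linarith, by linarith⟩, ?_, ?_⟩
      · nlinarith
      · nlinarith
    calc (k : ENNReal) * c₀ = ∑ i ∈ Finset.range k, μ (R i : Set G) := by
          simp [hRμ]
      _ = μ (⋃ i ∈ Finset.range k, (R i : Set G)) :=
          (measure_biUnion_finset hdisj fun i _ => hRm i).symm
      _ ≤ M := measure_mono hunion
  have hc0 : c₀ = 0 := by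
    by_contra hne
    obtain ⟨k, hk2⟩ := ENNReal.exists_nat_mul_gt hne hMfin.ne
    exact absurd (hk k) (not_le.2 hk2)
  -- all the unit squares are null
  have hsq : ∀ m n : ℤ, μ (Ico (m : ℝ) (m + 1) ×ˢ Ico (n : ℝ) (n + 1) : Set (ℝ × ℝ)) = 0 := by
    intro m n
    have h7 := hrect m n 0 1 0 1
    have h8 : l m = 1 := by rw [l, f_int, Real.exp_zero]
    rw [h8, ← hc₀, hc0] at h7
    have h9 : (Ico (m : ℝ) (m + 1) ×ˢ Ico (n : ℝ) (n + 1) : Set (ℝ × ℝ))
        = Ico (0 + (m : ℝ)) (1 + m) ×ˢ Ico (1 * 0 + (n : ℝ)) (1 * 1 + n) := by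
      congr 1 <;> congr 1 <;> ring
    rw [h9]
    exact h7
  rw [← Measure.measure_univ_eq_zero]
  have hcov : (univ : Set G) ⊆ ⋃ p : ℤ × ℤ,
      (Ico (p.1 : ℝ) (p.1 + 1) ×ˢ Ico (p.2 : ℝ) (p.2 + 1) : Set (ℝ × ℝ)) := by
    intro x _
    refine mem_iUnion.2 ⟨(⌊x.1⌋, ⌊x.2⌋), ⟨Int.floor_le _, Int.lt_floor_add_one _⟩,
      Int.floor_le _, Int.lt_floor_add_one _⟩
  refine measure_mono_null hcov ?_
  exact measure_iUnion_null fun p => hsq p.1 p.2

/-- There is a metrizable locally compact right topological group `G` (all right translations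
`g ↦ g * x` are continuous) without right Haar measure: the only Borel measure on `G` which is
finite on compact sets and satisfies `μ (E g) = μ E` for all `g ∈ G` and all Borel sets `E` is
the zero measure. -/
theorem result :
    ∃ (G : Type) (_ : Group G) (_ : TopologicalSpace G) (_ : MeasurableSpace G) (_ : BorelSpace G),
      TopologicalSpace.MetrizableSpace G ∧ LocallyCompactSpace G ∧
      (∀ x : G, Continuous fun g : G => g * x) ∧
      ∀ μ : Measure G, (∀ K : Set G, IsCompact K → μ K < ⊤) →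
        (∀ (g : G) (E : Set G), MeasurableSet E → μ ((fun x => x * g) '' E) = μ E) → μ = 0 :=
  ⟨G, inferInstance, inferInstance, inferInstance, inferInstance,
    inferInstanceAs (TopologicalSpace.MetrizableSpace (ℝ × ℝ)),
    inferInstanceAs (LocallyCompactSpace (ℝ × ℝ)), continuous_right, main⟩

end Pool.Agent.Results.MP_d698c5_an.NoHaar
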